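import Pool.Agent.H21.RC.Main
import Pool.Agent.H21.L.R_seed8.TH941.Newform

/-!
# One-sided bounds in races between elliptic curves

Let `E_i : y² = x³ + a_i x + b_i` be finitely many elliptic curves over `ℚ`, let
`P_i(x) = ∏_{p ≤ x, p ∤ 2Δ_i} N_p(E_i) / p`, let `F_i` be the entire continuation of the incomplete
`L`-series, `r_i = ord_{s=1} F_i`, `T_i = √2 e^{r_i γ} r_i! / |F_i^{(r_i)}(1)|`, and let `w_i` be REAL
weights of any signs.  Let `Q(x) = ∏ P_i(x)^(w_i)`, for example `P_1(x) / P_2(x)`, and let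
`m(s) = ∑ w_i ord_s F_i`.  Suppose that `m(s) ≥ 0` at the REAL points `s > 1` (for example that no `F_i`
has real zeros `> 1`).

* An upper bound `Q(x) ≤ C (log x)^ρ` for large `x` implies `m(s) = 0` for ALL `s` with `Re s > 1`,
  `∑ w_i r_i ≤ ρ`, and `∏ T_i^(w_i) ≤ C` if `∑ w_i r_i = ρ` and the curves are modular (all are).  In particular `P_1(x) ≤ C P_2(x)` for large
  `x` implies that `F_1` and `F_2` have the same zeros, with multiplicities, for `Re s > 1`, that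
  `r_1 ≤ r_2`, and that `T_1 ≤ C T_2` if `r_1 = r_2`.
* The bound `log Q(x) ≤ x^(θ+ε)` for every `ε > 0` implies `m(s) = 0` for `Re s > 1 + θ`.
* The order of magnitude `Q(x) ≍ (log x)^(∑ w_i r_i)` is equivalent to the doubling condition
  `Q(y) ≤ K Q(x)` for `x ≤ y ≤ x²`.
-/

set_option autoImplicit false

namespace Pool.Agent.Results.MP_ad1693_nt.CurveRaces

open Filter Topology CongruenceSubgroup UpperHalfPlane
open scoped MatrixGroups Classical

/-- `N_p`: the number of points of `y² = x³ + a x + b` modulo `p`, with the point at infinity. -/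
noncomputable def numPoints (a b : ℤ) (p : ℕ) : ℕ :=
  Nat.card {q : ZMod p × ZMod p // q.2 ^ 2 = q.1 ^ 3 + (a : ZMod p) * q.1 + (b : ZMod p)} + 1

/-- `p` is a prime that does not divide `2 Δ`, where `Δ = -4 a³ - 27 b²`. -/
def Good (a b : ℤ) (p : ℕ) : Prop :=
  p.Prime ∧ ¬ ((p : ℤ) ∣ 2 * (-4 * a ^ 3 - 27 * b ^ 2))

/-- The original Birch and Swinnerton-Dyer product `P(x) = ∏_{p ≤ x, p ∤ 2Δ} N_p / p`. -/
noncomputable def P (a b : ℤ) (x : ℝ) : ℝ :=
  ∏ p ∈ (Finset.range (⌊x⌋₊ + 1)).filter (Good a b), ((numPoints a b p : ℝ) / p)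

/-- `F` is an entire function which for `Re s > 3/2` is the incomplete `L`-series
`∏_{p ∤ 2Δ} (1 - a_p p^{-s} + p^{1-2s})⁻¹`, `a_p = p + 1 - N_p`, of `y² = x³ + a x + b`. -/
def IsLSeries (a b : ℤ) (F : ℂ → ℂ) : Prop :=
  Differentiable ℂ F ∧ ∀ s : ℂ, (3 : ℝ) / 2 < s.re →
    HasProd (fun p : ℕ => if Good a b p then
      (1 - ((p : ℂ) + 1 - (numPoints a b p : ℂ)) * (p : ℂ) ^ (-s) + (p : ℂ) ^ (1 - 2 * s))⁻¹ else 1)
      (F s)

/-- The `n`-th Fourier coefficient of `f`. -/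
noncomputable def coef {N : ℕ} (f : CuspForm (Gamma0 N : Subgroup (GL (Fin 2) ℝ)) 2) (n : ℕ) : ℂ :=
  (qExpansion 1 f).coeff n

/-- `f ∈ S_2(Γ₀(N))` is the newform of the elliptic curve `E : y² = x³ + a x + b` of conductor `N`: the
Fourier coefficients `c(n)` of `f` are real with `c(1) = 1`, they satisfy the Hecke relations
`c(mn) = c(m) c(n)` for coprime `m`, `n` and `c(p^(j+2)) = c(p) c(p^(j+1)) - p c(p^j)` (without the last
term if `p ∣ N`), `c(p) = a_p = p + 1 - N_p` for all primes `p ∤ 2Δ`, `|c(p)| ≤ 2 √p` for all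
`p ∤ N` (Hasse) and `c(p) = 0, 1, -1` for `p ∣ N`. -/
structure IsNewformOf (a b : ℤ) (N : ℕ) (f : CuspForm (Gamma0 N : Subgroup (GL (Fin 2) ℝ)) 2) :
    Prop where
  one : coef f 1 = 1
  real : ∀ n, (coef f n).im = 0
  mul : ∀ m n : ℕ, Nat.Coprime m n → coef f (m * n) = coef f m * coef f n
  pow : ∀ p j : ℕ, p.Prime → coef f (p ^ (j + 2)) = coef f p * coef f (p ^ (j + 1)) -
      (if p ∣ N then 0 else (p : ℂ) * coef f (p ^ j))
  points : ∀ p : ℕ, Good a b p → coef f p = (p : ℂ) + 1 - (numPoints a b p : ℂ)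
  good : ∀ p : ℕ, p.Prime → ¬ p ∣ N → ‖coef f p‖ ≤ 2 * Real.sqrt p
  bad : ∀ p : ℕ, p.Prime → p ∣ N → coef f p = 0 ∨ coef f p = 1 ∨ coef f p = -1

/-- `y² = x³ + a x + b` is modular (which by Wiles and Breuil-Conrad-Diamond-Taylor is always the case) -/
def Modular (a b : ℤ) : Prop := ∃ (N : ℕ) (_ : NeZero N)
  (f : CuspForm (Gamma0 N : Subgroup (GL (Fin 2) ℝ)) 2), IsNewformOf a b N f

/-- Goldfeld's constant `T = √2 e^{rγ} r! / |F^{(r)}(1)|` -/
noncomputable def T (F : ℂ → ℂ) (r : ℕ) : ℝ :=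
  √2 * Real.exp (r * Real.eulerMascheroniConstant) * r.factorial / ‖iteratedDeriv r F 1‖

/-- `Q(x) = ∏_i P_i(x)^(w_i)`, with real exponents `w_i` -/
noncomputable def Q {ι : Type} [Fintype ι] (a b : ι → ℤ) (w : ι → ℝ) (x : ℝ) : ℝ :=
  ∏ i, P (a i) (b i) x ^ w i

/-- `∑_i w_i ord_s F_i`, the weighted multiplicity of `s` as a zero of the functions `F_i` -/
noncomputable def wt {ι : Type} [Fintype ι] (F : ι → ℂ → ℂ) (w : ι → ℝ) (s : ℂ) : ℝ :=
  ∑ i, w i * (analyticOrderNatAt (F i) s : ℝ)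

/-! ### translation -/

open Pool.Agent.W263.BSD (bsdProduct leadAbs rsSum)

theorem P_eq (a b : ℤ) : P a b = bsdProduct a b := by
  funext x
  unfold P bsdProduct
  refine Finset.prod_congr rfl fun p _ => ?_
  congr 1
  unfold numPoints
  push_cast
  rfl

theorem ls_eq {a b : ℤ} {F : ℂ → ℂ} (h : IsLSeries a b F) : Pool.Agent.W263.BSD.IsLSeries a b F := by
  refine ⟨h.1, fun s hs => ?_⟩
  refine (congrArg (fun g => HasProd g (F s)) (funext fun p => ?_)).mp (h.2 s hs)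
  unfold numPoints
  push_cast
  rw [add_sub_add_right_eq_sub]
  rfl

theorem hecke {a b : ℤ} {N : ℕ} {f : CuspForm (Gamma0 N : Subgroup (GL (Fin 2) ℝ)) 2}
    (hf : IsNewformOf a b N f) : Pool.Agent.TH941.Hecke f where
  one := hf.one
  real := hf.real
  mul := hf.mul
  pow := hf.pow
  good := hf.good
  bad := fun p hp h => by
    rcases hf.bad p hp h with h1 | h1 | h1
    · have h2 : ‖coef f p‖ ≤ 1 := by rw [h1]; simp
      exact h2
    · have h2 : ‖coef f p‖ ≤ 1 := by rw [h1]; simp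
      exact h2
    · have h2 : ‖coef f p‖ ≤ 1 := by rw [h1]; simp
      exact h2

theorem rs {a b : ℤ} (hΔ : 4 * a ^ 3 + 27 * b ^ 2 ≠ 0) {N : ℕ} [NeZero N]
    {f : CuspForm (Gamma0 N : Subgroup (GL (Fin 2) ℝ)) 2} (hf : IsNewformOf a b N f) :
    Tendsto (rsSum a b) atTop (𝓝 0) := by
  refine (hecke hf).rsSum_tendsto hΔ fun p hp => ?_
  have h1 := hf.points p hp
  unfold numPoints at h1
  push_cast at h1
  rw [add_sub_add_right_eq_sub] at h1
  exact h1

theorem Q_eq {ι : Type} [Fintype ι] (a b : ι → ℤ) (w : ι → ℝ) :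
    Q a b w = Pool.Agent.H21.RC.QQ w a b := by
  funext x
  unfold Q Pool.Agent.H21.RC.QQ
  exact Finset.prod_congr rfl fun i _ => by rw [P_eq]

/-- **One-sided bounds for `∏ P_i(x)^(w_i)`.** -/
theorem result {ι : Type} [Fintype ι] (a b : ι → ℤ) (hΔ : ∀ i, 4 * a i ^ 3 + 27 * b i ^ 2 ≠ 0)
    (F : ι → ℂ → ℂ) (hF : ∀ i, IsLSeries (a i) (b i) (F i)) :
    ∃ r : ι → ℕ, (∀ i, analyticOrderAt (F i) 1 = r i ∧ iteratedDeriv (r i) (F i) 1 ≠ 0) ∧
      (∀ w : ι → ℝ, (∀ s : ℝ, 1 < s → 0 ≤ wt F w s) →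
        (∀ C ρ : ℝ, (∀ᶠ x : ℝ in atTop, Q a b w x ≤ C * (Real.log x) ^ ρ) →
          (∀ s : ℂ, 1 < s.re → wt F w s = 0) ∧ ∑ i, w i * r i ≤ ρ ∧
          ((∀ i, Modular (a i) (b i)) → ∑ i, w i * r i = ρ → ∏ i, T (F i) (r i) ^ w i ≤ C)) ∧
        (∀ θ : ℝ, 0 ≤ θ → (∀ ε : ℝ, 0 < ε → ∀ᶠ x : ℝ in atTop,
          Real.log (Q a b w x) ≤ x ^ (θ + ε)) → ∀ s : ℂ, 1 + θ < s.re → wt F w s = 0) ∧
        ((∃ c C : ℝ, 0 < c ∧ ∀ᶠ x : ℝ in atTop, c * (Real.log x) ^ (∑ i, w i * r i) ≤ Q a b w x ∧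
            Q a b w x ≤ C * (Real.log x) ^ (∑ i, w i * r i)) ↔
          ∃ K : ℝ, ∀ᶠ x : ℝ in atTop, ∀ y, x ≤ y → y ≤ x ^ 2 → Q a b w y ≤ K * Q a b w x)) ∧
      ∀ i j : ι, (∀ s : ℝ, 1 < s → analyticOrderNatAt (F j) s ≤ analyticOrderNatAt (F i) s) →
        ∀ C : ℝ, (∀ᶠ x : ℝ in atTop, P (a i) (b i) x ≤ C * P (a j) (b j) x) →
          (∀ s : ℂ, 1 < s.re → analyticOrderNatAt (F i) s = analyticOrderNatAt (F j) s) ∧
          r i ≤ r j ∧ ((∀ k, Modular (a k) (b k)) → r i = r j →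
            T (F i) (r i) ≤ C * T (F j) (r j)) := by
  have hF' : ∀ i, Pool.Agent.W263.BSD.IsLSeries (a i) (b i) (F i) := fun i => ls_eq (hF i)
  choose r hr using fun i => Pool.Agent.W263.BSD.order_finite (hF' i)
  have hrs : (∀ i, Modular (a i) (b i)) → ∀ i, Tendsto (rsSum (a i) (b i)) atTop (𝓝 0) :=
    fun hm i => by
      obtain ⟨N, _, f, hf⟩ := hm i
      exact rs (hΔ i) hf
  have hpos : ∀ i, 0 < leadAbs (F i) (r i) := fun i =>
    (Pool.Agent.W263.BSD.lead_limit (hF' i).1 (hr i)).1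
  have hne : ∀ i, iteratedDeriv (r i) (F i) 1 ≠ 0 := by
    intro i h
    have := hpos i
    unfold leadAbs at this
    rw [h, norm_zero, zero_div] at this
    exact lt_irrefl _ this
  have hT : ∀ i, T (F i) (r i) = Pool.Agent.H21.RC.TT F r i := by
    intro i
    have hnn : 0 < ‖iteratedDeriv (r i) (F i) 1‖ := norm_pos_iff.2 (hne i)
    unfold T Pool.Agent.H21.RC.TT leadAbs
    have : (0 : ℝ) < (r i).factorial := by exact_mod_cast (r i).factorial_pos
    field_simp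
  have key : ∀ w : ι → ℝ, (∀ s : ℝ, 1 < s → 0 ≤ wt F w s) →
      ∀ C ρ : ℝ, (∀ᶠ x : ℝ in atTop, Q a b w x ≤ C * (Real.log x) ^ ρ) →
          (∀ s : ℂ, 1 < s.re → wt F w s = 0) ∧ ∑ i, w i * r i ≤ ρ ∧
          ((∀ i, Modular (a i) (b i)) → ∑ i, w i * r i = ρ → ∏ i, T (F i) (r i) ^ w i ≤ C) := by
    intro w hw C ρ h
    rw [Q_eq] at h
    obtain ⟨h1, h2⟩ := Pool.Agent.H21.RC.upper_law0 hF' hr hw h
    refine ⟨h1, h2, fun hm h4 => ?_⟩
    simp only [hT]
    exact (Pool.Agent.H21.RC.upper_law hΔ hF' hr (hrs hm) hw h).2.2 h4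
  refine ⟨r, fun i => ⟨hr i, hne i⟩, fun w hw => ⟨key w hw, fun θ hθ h s hs => ?_, ?_⟩, ?_⟩
  · rw [Q_eq] at h
    exact Pool.Agent.H21.RC.cancel_of hF' hr hθ (Pool.Agent.H21.RC.conv_power hF' hr hθ
      (fun x hx => hw x (by linarith)) h) s hs
  · rw [Q_eq]
    have h1 : (∃ c C : ℝ, 0 < c ∧ ∀ᶠ x : ℝ in atTop,
        c * (Real.log x) ^ (∑ i, w i * r i) ≤ Pool.Agent.H21.RC.QQ w a b x ∧
        Pool.Agent.H21.RC.QQ w a b x ≤ C * (Real.log x) ^ (∑ i, w i * r i)) ↔
        (∀ s : ℝ, 1 < s → 0 ≤ wt F w s) ∧ ∃ K : ℝ, ∀ᶠ x : ℝ in atTop, ∀ y, x ≤ y → y ≤ x ^ 2 →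
        Pool.Agent.H21.RC.QQ w a b y ≤ K * Pool.Agent.H21.RC.QQ w a b x :=
      (Pool.Agent.H21.RC.order_law (w := w) hF' hr).out 1 2
    exact ⟨fun h => (h1.1 h).2, fun h => h1.2 ⟨hw, h⟩⟩
  · intro i j hij C h
    by_cases hne' : i = j
    · subst hne'
      refine ⟨fun s _ => rfl, le_rfl, fun _ _ => ?_⟩
      have hP : ∀ x, 0 < P (a i) (b i) x := fun x => by
        rw [P_eq]
        exact Pool.Agent.W263.BSD.bsdProduct_pos x
      obtain ⟨x, hx⟩ := h.exists
      have hC : 1 ≤ C := by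
        by_contra hcon
        have := mul_lt_mul_of_pos_right (not_le.1 hcon) (hP x)
        linarith
      have hTp : 0 < T (F i) (r i) := by
        rw [hT]
        exact Pool.Agent.H21.RC.TT_pos hpos i
      nlinarith
    · set w : ι → ℝ := fun k => (if k = i then 1 else 0) - (if k = j then 1 else 0) with hwdef
      have hsum : ∀ g : ι → ℝ, ∑ k, w k * g k = g i - g j := by
        intro g
        simp only [hwdef, sub_mul, ite_mul, one_mul, zero_mul, Finset.sum_sub_distrib,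
          Finset.sum_ite_eq', Finset.mem_univ, if_true]
      have hprod : ∀ g : ι → ℝ, (∀ k, 0 < g k) → ∏ k, g k ^ w k = g i / g j := by
        intro g hg
        have h1 : ∀ k, g k ^ w k = (if k = i then g k else 1) / (if k = j then g k else 1) := by
          intro k
          rw [hwdef]
          simp only []
          rw [Real.rpow_sub (hg k)]
          congr 1
          · split_ifs
            · exact Real.rpow_one _
            · exact Real.rpow_zero _
          · split_ifs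
            · exact Real.rpow_one _
            · exact Real.rpow_zero _
        rw [Finset.prod_congr rfl fun k _ => h1 k, Finset.prod_div_distrib]
        simp only [Finset.prod_ite_eq', Finset.mem_univ, if_true]
      have hPpos : ∀ x k, 0 < P (a k) (b k) x := fun x k => by
        rw [P_eq]
        exact Pool.Agent.W263.BSD.bsdProduct_pos x
      obtain ⟨h1, h2, h3⟩ := key w (fun s hs => by
        unfold wt
        rw [hsum fun k => (analyticOrderNatAt (F k) s : ℝ)]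
        have : (analyticOrderNatAt (F j) s : ℝ) ≤ analyticOrderNatAt (F i) s := by
          exact_mod_cast hij s hs
        linarith) C 0 (by
        filter_upwards [h] with x hx
        unfold Q
        rw [hprod (fun k => P (a k) (b k) x) (hPpos x), Real.rpow_zero, mul_one,
          div_le_iff₀ (hPpos x j)]
        exact hx)
      rw [hsum fun k => (r k : ℝ)] at h2 h3
      refine ⟨fun s hs => ?_, ?_, fun hm hrr => ?_⟩
      · have h4 := h1 s hs
        unfold wt at h4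
        rw [hsum fun k => (analyticOrderNatAt (F k) s : ℝ), sub_eq_zero] at h4
        exact_mod_cast h4
      · have h4 : (r i : ℝ) ≤ r j := by linarith
        exact_mod_cast h4
      · have hTp : ∀ k, 0 < T (F k) (r k) := fun k => by
          rw [hT]
          exact Pool.Agent.H21.RC.TT_pos hpos k
        have h4 := h3 hm (by rw [hrr, sub_self])
        rw [hprod (fun k => T (F k) (r k)) hTp, div_le_iff₀ (hTp j)] at h4
        exact h4

end Pool.Agent.Results.MP_ad1693_nt.CurveRaces
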