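import Pool.Agent.H21.RHB.MainB
import Pool.Agent.H27.G.R_seed8.H295R3.Hoheisel

/-!
# Hasse, Sato-Tate and Riemann do not imply the asymptotic of Birch and Swinnerton-Dyer

For an elliptic curve over `ℚ` the original conjecture of Birch and Swinnerton-Dyer says that
`∏_{p ≤ x} N_p / p ~ C (log x)^r`, where `N_p = p + 1 - a_p` and `r` is the order of
`L(s) = ∏_p (1 - a_p p^(-s) + p^(1 - 2s))^(-1)` at `s = 1`.  The Riemann hypothesis for `L` gives only
that the product lies between `x^(-K)` and `x^K`.  We show that this cannot be improved with the help of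
the bound of Hasse and the law of Sato-Tate, and not either with the help of approximations of the
numbers `a_p` of a given curve.

* For every `r` there are integers `a_p` (`p` runs over the primes) with `|a_p| ≤ 2 √p`, with the
  Sato-Tate distribution up to `O(x^(1 - η))`, such that `L` extends to a holomorphic function on a
  half plane `Re s > 1 - δ`, all the zeros of which lie on the line `Re s = 1`, are simple except for
  `s = 1`, where the order is `r`, and are `O(T log T)` in number up to the height `T`; but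
  `∏_{p ≤ x} N_p / p` is larger than `x^c` for arbitrarily large `x` and smaller than `x^(-c)` for
  arbitrarily large `x`.
* For every elliptic curve `E` over `ℚ`, every `ε > 0` and every `r` there are integers `a_p` with
  `|a_p - a_p(E)| ≤ p^ε` such that the quotient of the `L`-functions is holomorphic for
  `Re s > 1 - δ`, has all its zeros on the line `Re s = 1`, where they are as above, and the order `r`
  at `s = 1`; but the quotient of the products over `p ≤ x` is larger than `x^c` for arbitrarily large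
  `x` and smaller than `x^(-c)` for arbitrarily large `x`.
-/

set_option autoImplicit false

namespace Pool.Agent.Results.MP_ad1693_nt.HasseRiemannSatoTate

open Filter Topology

open scoped Classical

/-- The number `N_p = p + 1 - a_p`. -/
def points (a : ℕ → ℤ) (p : ℕ) : ℤ := (p : ℤ) + 1 - a p

/-- The bound of Hasse, for all primes. -/
def Hasse (a : ℕ → ℤ) : Prop := ∀ p : ℕ, p.Prime → |(a p : ℝ)| ≤ 2 * Real.sqrt p

/-- The distribution function of the Sato-Tate measure `(2/π) √(1 - t²) dt` on `[-1, 1]`: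
`F(x) = 1/2 + (x √(1 - x²) + arcsin x) / π`. -/
noncomputable def stDist (x : ℝ) : ℝ :=
  1 / 2 + (1 / Real.pi) * (x * Real.sqrt (1 - x ^ 2) + Real.arcsin x)

/-- The law of Sato-Tate with a power saving error term: for all `x ∈ [-1, 1]` and all `X` the number
of the primes `p ≤ X` with `a_p ≤ 2 x √p` is `stDist x · π(X) + O(X^(1 - η))`, for some `η > 0`. -/
def SatoTate (a : ℕ → ℤ) : Prop := ∃ η C : ℝ, 0 < η ∧ ∀ X : ℕ, ∀ x ∈ Set.Icc (-1 : ℝ) 1,
  |((((Finset.range (X + 1)).filter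
      (fun p => p.Prime ∧ (a p : ℝ) ≤ 2 * x * Real.sqrt p)).card : ℝ)) -
    stDist x * (((Finset.range (X + 1)).filter Nat.Prime).card : ℝ)| ≤ C * (X : ℝ) ^ (1 - η)

/-- The Euler factor `1 - a_p p^(-s) + p^(1 - 2s)`. -/
noncomputable def eulerFactor (a : ℕ → ℤ) (p : ℕ) (s : ℂ) : ℂ :=
  1 - (a p : ℂ) * (p : ℂ) ^ (-s) + (p : ℂ) ^ (1 - 2 * s)

/-- `L` is the Euler product for `Re s > 3/2`, and it is holomorphic for `Re s > 1 - δ`. -/
def IsLFunction (a : ℕ → ℤ) (δ : ℝ) (L : ℂ → ℂ) : Prop :=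
  (∀ s : ℂ, 3 / 2 < s.re →
    HasProd (fun p : Nat.Primes => (eulerFactor a (p : ℕ) s)⁻¹) (L s)) ∧
  DifferentiableOn ℂ L {s | 1 - δ < s.re}

/-- The Riemann hypothesis: all the zeros with `Re s > 1 - δ` have `Re s = 1`; they are simple, except
possibly for `s = 1`, and there are only `O(T log T)` of them up to the height `T`. -/
def Riemann (δ : ℝ) (L : ℂ → ℂ) : Prop :=
  (∀ s : ℂ, 1 - δ < s.re → L s = 0 → s.re = 1) ∧
  (∀ s : ℂ, 1 - δ < s.re → L s = 0 → s ≠ 1 → deriv L s ≠ 0) ∧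
  ∃ C : ℝ, ∀ T : ℝ, 2 ≤ T → {s : ℂ | 1 - δ < s.re ∧ L s = 0 ∧ |s.im| ≤ T}.Finite ∧
    ({s : ℂ | 1 - δ < s.re ∧ L s = 0 ∧ |s.im| ≤ T}.ncard : ℝ) ≤ C * T * Real.log T

/-- The product of Birch and Swinnerton-Dyer: `∏_{p ≤ x} N_p / p`. -/
noncomputable def bsdProduct (a : ℕ → ℤ) (x : ℕ) : ℝ :=
  ∏ p ∈ (Finset.range (x + 1)).filter Nat.Prime, ((points a p : ℝ) / p)

/-! ### Elliptic curves `y² = x³ + A x + B` over `ℚ` -/

/-- The number of points modulo `p`, with the point at infinity. -/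
noncomputable def numPoints (A B : ℤ) (p : ℕ) : ℕ :=
  Nat.card {q : ZMod p × ZMod p // q.2 ^ 2 = q.1 ^ 3 + (A : ZMod p) * q.1 + (B : ZMod p)} + 1

/-- The number `a_p(E)` of the curve: `p + 1` minus the number of points. -/
noncomputable def trace (A B : ℤ) (p : ℕ) : ℤ := (p : ℤ) + 1 - numPoints A B p

/-- `p` is a prime that does not divide `2 Δ`, where `Δ = -4 A³ - 27 B²`. -/
def Good (A B : ℤ) (p : ℕ) : Prop := p.Prime ∧ ¬ ((p : ℤ) ∣ 2 * (-4 * A ^ 3 - 27 * B ^ 2))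

/-- `F` is for `Re s > 3/2` the product of the `(1 - a_p p^(-s) + p^(1-2s))⁻¹` over the primes
`p ∤ 2Δ`. -/
def IsGoodProduct (A B : ℤ) (a : ℕ → ℤ) (F : ℂ → ℂ) : Prop := ∀ s : ℂ, 3 / 2 < s.re →
  HasProd (fun p : ℕ => if Good A B p then (eulerFactor a p s)⁻¹ else 1) (F s)

/-- The product of the `N_p / p`, `N_p = p + 1 - a_p`, over the primes `p ≤ x`, `p ∤ 2Δ`. -/
noncomputable def goodProduct (A B : ℤ) (a : ℕ → ℤ) (x : ℕ) : ℝ :=
  ∏ p ∈ (Finset.range (x + 1)).filter (Good A B), ((points a p : ℝ) / p)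

/-- `P(x)` is asymptotic to a constant multiple of a power of `log x`. -/
def PowerOfLog (P : ℕ → ℝ) : Prop :=
  ∃ C ρ : ℝ, C ≠ 0 ∧ Tendsto (fun x : ℕ => P x / (C * Real.log x ^ ρ)) atTop (𝓝 1)

/-- A quotient which exceeds `x^c` for arbitrarily large `x` is not asymptotic to a power of `log x`. -/
theorem not_both {P Q : ℕ → ℝ} {c : ℝ} (hc : 0 < c)
    (g : ∀ X : ℕ, ∃ x : ℕ, X ≤ x ∧ 0 < P x ∧ (x : ℝ) ^ c ≤ Q x / P x) :
    ¬ (PowerOfLog P ∧ PowerOfLog Q) := by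
  rintro ⟨⟨C, ρ, hC, hT⟩, ⟨C', ρ', hC', hT'⟩⟩
  have hq : Tendsto (fun x : ℕ => Q x / (C' * Real.log x ^ ρ') / (P x / (C * Real.log x ^ ρ)))
      atTop (𝓝 (1 / 1)) := hT'.div hT one_ne_zero
  rw [div_one] at hq
  have hlog : Tendsto (fun x : ℕ => C' / C * Real.log x ^ (ρ' - ρ) / (x : ℝ) ^ c) atTop (𝓝 0) := by
    have h := (isLittleO_log_rpow_rpow_atTop (ρ' - ρ) hc).tendsto_div_nhds_zero
    have h' := (h.comp tendsto_natCast_atTop_atTop).const_mul (C' / C)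
    rw [mul_zero] at h'
    refine h'.congr fun x => ?_
    simp only [Function.comp]
    ring
  have hmul := hq.mul hlog
  rw [mul_zero] at hmul
  have hev := hmul.eventually (gt_mem_nhds (show (0:ℝ) < 1 by norm_num))
  obtain ⟨X0, hX0⟩ := (hev.and (eventually_ge_atTop 3)).exists_forall_of_atTop
  obtain ⟨x, hx, hP, hx2⟩ := g X0
  obtain ⟨hx3, hx4⟩ := hX0 x hx
  have hx0 : (0:ℝ) < x := by exact_mod_cast (by omega : 0 < x)
  have hlx : 0 < Real.log x := Real.log_pos (by exact_mod_cast (by omega : 1 < x))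
  have hxc : 0 < (x:ℝ) ^ c := Real.rpow_pos_of_pos hx0 c
  have hl1 : 0 < Real.log x ^ ρ := Real.rpow_pos_of_pos hlx ρ
  have hl2 : 0 < Real.log x ^ ρ' := Real.rpow_pos_of_pos hlx ρ'
  rw [Real.rpow_sub hlx] at hx3
  have : Q x / (C' * Real.log x ^ ρ') / (P x / (C * Real.log x ^ ρ)) *
      (C' / C * (Real.log x ^ ρ' / Real.log x ^ ρ) / (x : ℝ) ^ c) = Q x / P x / (x:ℝ) ^ c := by
    field_simp
  rw [this, div_lt_one hxc] at hx3
  linarith

theorem result :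
    (∃ δ c : ℝ, 0 < δ ∧ 0 < c ∧ ∀ r : ℕ, ∃ (a : ℕ → ℤ) (L : ℂ → ℂ),
      Hasse a ∧ SatoTate a ∧ IsLFunction a δ L ∧ Riemann δ L ∧ analyticOrderAt L 1 = r ∧
      (∀ X : ℕ, ∃ x : ℕ, X ≤ x ∧ (x : ℝ) ^ c ≤ bsdProduct a x) ∧
      (∀ X : ℕ, ∃ x : ℕ, X ≤ x ∧ bsdProduct a x ≤ (x : ℝ) ^ (-c)) ∧
      ¬ PowerOfLog (bsdProduct a)) ∧
    (∀ ε : ℝ, 0 < ε → ∃ δ c : ℝ, 0 < δ ∧ 0 < c ∧ ∀ A B : ℤ, 4 * A ^ 3 + 27 * B ^ 2 ≠ 0 →
      ∀ F : ℂ → ℂ, IsGoodProduct A B (trace A B) F → ∀ r : ℕ, ∃ (a : ℕ → ℤ) (R : ℂ → ℂ),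
      (∀ p : ℕ, Good A B p → |(a p : ℝ) - trace A B p| ≤ (p : ℝ) ^ ε) ∧
      IsGoodProduct A B a (fun s => F s * R s) ∧
      DifferentiableOn ℂ R {s | 1 - δ < s.re} ∧ Riemann δ R ∧ analyticOrderAt R 1 = r ∧
      (∀ X : ℕ, ∃ x : ℕ, X ≤ x ∧ 0 < goodProduct A B (trace A B) x ∧
        (x : ℝ) ^ c ≤ goodProduct A B a x / goodProduct A B (trace A B) x) ∧
      (∀ X : ℕ, ∃ x : ℕ, X ≤ x ∧ 0 < goodProduct A B (trace A B) x ∧ 0 < goodProduct A B a x ∧
        goodProduct A B a x / goodProduct A B (trace A B) x ≤ (x : ℝ) ^ (-c)) ∧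
      ¬ (PowerOfLog (goodProduct A B (trace A B)) ∧ PowerOfLog (goodProduct A B a))) := by
  constructor
  · obtain ⟨δ, c, hδ, hc, H⟩ := H21RHB.main2 Pool.Agent.H295R3.D.hoheisel
    refine ⟨δ, c, hδ, hc, fun r => ?_⟩
    obtain ⟨a, L, h1, h2, h3, h4, h5, h6, h7, h8, h9, h10⟩ := H r
    have hP : ∀ x : ℕ, bsdProduct a x = H21RHB.PP a x := by
      intro x
      unfold bsdProduct H21RHB.PP points
      refine Finset.prod_congr rfl fun p _ => ?_
      push_cast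
      rfl
    have g1 : ∀ X : ℕ, ∃ x : ℕ, X ≤ x ∧ (x : ℝ) ^ c ≤ bsdProduct a x := by
      intro X
      obtain ⟨x, hx, hx2⟩ := h9 X
      exact ⟨x, hx, by rw [hP]; exact hx2⟩
    have g2 : ∀ X : ℕ, ∃ x : ℕ, X ≤ x ∧ bsdProduct a x ≤ (x : ℝ) ^ (-c) := by
      intro X
      obtain ⟨x, hx, hx2⟩ := h10 X
      exact ⟨x, hx, by rw [hP]; exact hx2⟩
    refine ⟨a, L, h1, h2, ⟨h3, h4⟩, ⟨h5, h7, h8⟩, h6, g1, g2, ?_⟩
    intro hT
    refine not_both (P := fun _ => 1) (Q := bsdProduct a) hc ?_ ⟨⟨1, 0, one_ne_zero, ?_⟩, hT⟩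
    · intro X
      obtain ⟨x, hx, hx2⟩ := g1 X
      exact ⟨x, hx, one_pos, by rw [div_one]; exact hx2⟩
    · simp
  · intro ε hε
    obtain ⟨δ, c, hδ, hc, H⟩ := H21RHB.curveB
      (H21RHB.seqB Pool.Agent.H295R3.D.hoheisel) H21RHB.eul_main ε hε
    refine ⟨δ, c, hδ, hc, fun A B hΔ F hF r => ?_⟩
    obtain ⟨a, R, h1, h2, h3, h4, h5, h6, h7, h8, h9⟩ := H A B hΔ F hF r
    exact ⟨a, R, h1, h2, h3, ⟨h4, h5, h6⟩, h7, h8, h9, not_both hc h8⟩

end Pool.Agent.Results.MP_ad1693_nt.HasseRiemannSatoTate
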