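import Pool.Agent.H21.RH.EQ
import Pool.Agent.H21.L.R_seed8.TH941.Newform

/-!
# The products of Birch and Swinnerton-Dyer of several curves: one averaged law

Let `E_i : y² = x³ + a_i x + b_i` be finitely many elliptic curves over `ℚ`, let
`P_i(x) = ∏_{p ≤ x, p ∤ 2Δ_i} N_p(E_i) / p` be the product of the question, `P*_i(x)` the same product
times `exp (∑_{√x < p ≤ x} (a_p² - 2p)/(2p²))`, `F_i` the entire continuation of the incomplete
`L`-series, `r_i = ord_{s=1} F_i`, `c_i = F_i^(r_i)(1)/r_i!`, and `m_i(t)` the order of `F_i` at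
`1 + it`. The question asks for `P_i(x) ∼ C_i (log x)^(r_i)`. For REAL weights `w_i` of any signs, `ρ`
real and `A > 0` let

`D₀(x) = log (A ∏ P_i(x)^(w_i) / (√2^(∑ w_i) (e^γ log x)^ρ))`,
`D(x) = log (A ∏ P*_i(x)^(w_i) / (e^γ log x)^ρ)`,  `δ_i(x) = log (c_i P*_i(x) / (e^γ log x)^(r_i))`.

The asymptotic formula of the question for all the curves implies `D₀(x) → 0` (for `ρ = ∑ w_i r_i` and
`A = ∏ c_i^(w_i)`). Here the averaged form of this single statement is studied, for weights of any signs.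

1. **Weights which are linearly independent over `ℚ`.** The following are equivalent:
   (a) every `F_i` has no zeros with `Re s > 1`, and `ρ = ∑ w_i r_i`, `A = ∏ c_i^(w_i)`;
   (b) the logarithmic means of `|D₀|` (the ORIGINAL products) tend to `0` (no rate);
   (c) the same for `D`;
   (d) the logarithmic mean square of `log x · D(x)` is bounded;
   (e) `log x · D(x)` has a limiting logarithmic distribution (with second moments);
   (f) the same, with mean `0`, variance `∑_t (∑_i w_i m_i(t))² / t²` and densities;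
   (g) `ρ = ∑ w_i r_i`, `A = ∏ c_i^(w_i)`, and the VECTOR `(log x · δ_i(x))_i` has a joint limiting
       distribution, with means `0` and covariances `∑_t m_i(t) m_j(t) / t²`;
   (h) `ρ = ∑ w_i r_i`, `A = ∏ c_i^(w_i)`, and ALL real powers `∏ (P*_i)^(w'_i)` have their limit law.
2. **Arbitrary real weights**, if the `F_i` have no zeros with `Re s > 1`: `ρ = ∑ w_i r_i` and
   `A = ∏ c_i^(w_i)`, (b), (c), (d), (e), (f) are equivalent. For example `P_1(x)/P_2(x)`.
3. **One-sided bounds.** If the `w_i` are independent over `ℚ`, `∑ w_i ord_x F_i ≥ 0` for real `x > 1`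
   and `log x · D(x) ≤ B` for all large `x`, then no `F_i` has zeros with `Re s > 1`,
   `∑ w_i r_i ≤ ρ`, and `|∑ w_i m_i(t)| ≤ B |t|` for all `t ≠ 0` if `ρ = ∑ w_i r_i`, `A = ∏ c_i^(w_i)`.
-/

set_option autoImplicit false

namespace Pool.Agent.Results.MP_ad1693_nt.OneAveragedLaw

open MeasureTheory Filter Topology Set Complex CongruenceSubgroup
open UpperHalfPlane (qExpansion)
open scoped MatrixGroups Classical

/-- `N_p`: the number of points of `y² = x³ + a x + b` modulo `p`, with the point at infinity. -/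
noncomputable def numPoints (a b : ℤ) (p : ℕ) : ℕ :=
  Nat.card {q : ZMod p × ZMod p // q.2 ^ 2 = q.1 ^ 3 + (a : ZMod p) * q.1 + (b : ZMod p)} + 1

/-- `p` is a prime that does not divide `2 Δ`, where `Δ = -4 a³ - 27 b²`. -/
def Good (a b : ℤ) (p : ℕ) : Prop :=
  p.Prime ∧ ¬ ((p : ℤ) ∣ 2 * (-4 * a ^ 3 - 27 * b ^ 2))

/-- The original Birch and Swinnerton-Dyer product `P(x) = ∏_{p ≤ x, p ∤ 2Δ} N_p / p`. -/
noncomputable def P (a b : ℤ) (x : ℝ) : ℝ :=
  ∏ p ∈ (Finset.range (⌊x⌋₊ + 1)).filter (Good a b), ((numPoints a b p : ℝ) / p)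

/-- `F` is an entire function which for `Re s > 3/2` is the incomplete `L`-series
`∏_{p ∤ 2Δ} (1 - a_p p^{-s} + p^{1-2s})⁻¹`, `a_p = p + 1 - N_p`, of `y² = x³ + a x + b`. -/
def IsLSeries (a b : ℤ) (F : ℂ → ℂ) : Prop :=
  Differentiable ℂ F ∧ ∀ s : ℂ, (3 : ℝ) / 2 < s.re →
    HasProd (fun p : ℕ => if Good a b p then
      (1 - ((p : ℂ) + 1 - (numPoints a b p : ℂ)) * (p : ℂ) ^ (-s) + (p : ℂ) ^ (1 - 2 * s))⁻¹ else 1)
      (F s)

/-- The `n`-th Fourier coefficient of `f`. -/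
noncomputable def coef {N : ℕ} (f : CuspForm (Gamma0 N : Subgroup (GL (Fin 2) ℝ)) 2) (n : ℕ) : ℂ :=
  (qExpansion 1 f).coeff n

/-- `f ∈ S_2(Γ₀(N))` is the newform of the elliptic curve `E : y² = x³ + a x + b` of conductor `N`: the
Fourier coefficients `c(n)` of `f` are real with `c(1) = 1`, they satisfy the Hecke relations
`c(mn) = c(m) c(n)` for coprime `m`, `n` and `c(p^(j+2)) = c(p) c(p^(j+1)) - p c(p^j)` (without the last
term if `p ∣ N`), `c(p) = a_p = p + 1 - N_p` for all primes `p ∤ 2Δ`, `|c(p)| ≤ 2 √p` for all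
`p ∤ N` (Hasse) and `c(p) = 0, 1, -1` for `p ∣ N`. -/
structure IsNewformOf (a b : ℤ) (N : ℕ) (f : CuspForm (Gamma0 N : Subgroup (GL (Fin 2) ℝ)) 2) :
    Prop where
  one : coef f 1 = 1
  real : ∀ n, (coef f n).im = 0
  mul : ∀ m n : ℕ, Nat.Coprime m n → coef f (m * n) = coef f m * coef f n
  pow : ∀ p j : ℕ, p.Prime → coef f (p ^ (j + 2)) = coef f p * coef f (p ^ (j + 1)) -
      (if p ∣ N then 0 else (p : ℂ) * coef f (p ^ j))
  points : ∀ p : ℕ, Good a b p → coef f p = (p : ℂ) + 1 - (numPoints a b p : ℂ)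
  good : ∀ p : ℕ, p.Prime → ¬ p ∣ N → ‖coef f p‖ ≤ 2 * Real.sqrt p
  bad : ∀ p : ℕ, p.Prime → p ∣ N → coef f p = 0 ∨ coef f p = 1 ∨ coef f p = -1

/-- `y² = x³ + a x + b` is modular (which by Wiles and Breuil-Conrad-Diamond-Taylor is always the case) -/
def Modular (a b : ℤ) : Prop := ∃ (N : ℕ) (_ : NeZero N)
  (f : CuspForm (Gamma0 N : Subgroup (GL (Fin 2) ℝ)) 2), IsNewformOf a b N f

/-- `P*(x) = P(x) exp (∑_{√x < p ≤ x} (a_p² - 2p)/(2p²))`, `a_p = p + 1 - N_p`, over the good primes -/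
noncomputable def Pstar (a b : ℤ) (x : ℝ) : ℝ :=
  P a b x * Real.exp (∑ p ∈ (Finset.range (⌊x⌋₊ + 1)).filter (fun p => Good a b p ∧ √x < p),
    (((p : ℝ) + 1 - numPoints a b p) ^ 2 - 2 * p) / (2 * (p : ℝ) ^ 2))

/-- no zeros with `Re s > 1` -/
def RH (F : ℂ → ℂ) : Prop := ∀ s : ℂ, 1 < s.re → F s ≠ 0

/-- `r` is the order of `F` at `s = 1` and `F^(r)(1)/r! = c` -/
def IsLeading (F : ℂ → ℂ) (r : ℕ) (c : ℝ) : Prop :=
  analyticOrderAt F 1 = r ∧ iteratedDeriv r F 1 / (r.factorial : ℂ) = c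

/-- the order of `F` at `1 + it` -/
noncomputable def mult (F : ℂ → ℂ) (t : ℝ) : ℕ := analyticOrderNatAt F (1 + t * I)

/-- the logarithmic means of `|D|` tend to `0` -/
def MeanZero (D : ℝ → ℝ) : Prop :=
  Tendsto (fun X : ℝ => (∫ x in Real.exp 1..X, |D x| / x) / Real.log X) atTop (𝓝 0)

/-- `∫_e^X (log x · D(x))² dx/x ≤ B log X` for some `B` and all large `X` -/
def BoundedMeanSquare (D : ℝ → ℝ) : Prop := ∃ B : ℝ, ∀ᶠ X : ℝ in atTop,
  ∫ x in Real.exp 1..X, (Real.log x * D x) ^ 2 / x ≤ B * Real.log X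

/-- `ν` is the limiting logarithmic distribution of `log x · D(x)`. -/
def IsLimitLaw (D : ℝ → ℝ) (ν : Measure ℝ) : Prop :=
  IsProbabilityMeasure ν ∧ ∀ φ : ℝ → ℝ, Continuous φ → (∃ B : ℝ, ∀ y, |φ y| ≤ B) →
    Tendsto (fun X : ℝ => (∫ x in Real.exp 1..X, φ (Real.log x * D x) / x) / Real.log X) atTop
      (𝓝 (∫ y, φ y ∂ν))

/-- There is a limiting logarithmic distribution with a second moment, the limit of the mean
squares. -/
def HasLimitLaw (D : ℝ → ℝ) : Prop :=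
  ∃ ν : Measure ℝ, IsLimitLaw D ν ∧ Integrable (fun y : ℝ => y ^ 2) ν ∧
    Tendsto (fun X : ℝ => (∫ x in Real.exp 1..X, (Real.log x * D x) ^ 2 / x) / Real.log X) atTop
      (𝓝 (∫ y, y ^ 2 ∂ν))

open Classical in
/-- the logarithmic proportion of the `x` in `[e, X]` with `log x · D(x) > c` -/
noncomputable def shareAbove (D : ℝ → ℝ) (c X : ℝ) : ℝ :=
  (∫ x in Real.exp 1..X, if c < Real.log x * D x then 1 / x else 0) / Real.log X

/-- There is exactly one limiting logarithmic distribution `ν` of `log x · D(x)`; its mean is `0`, its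
variance is `∑ μ(t)²/t²`, the limit of the mean squares, and `{x : log x · D(x) > c}` has the
logarithmic density `ν(c, ∞)` if `ν{c} = 0`. -/
def LimitLaw (μ : ℝ → ℝ) (D : ℝ → ℝ) : Prop :=
  ∃ ν : Measure ℝ, (IsLimitLaw D ν ∧ ∀ ν' : Measure ℝ, IsLimitLaw D ν' → ν' = ν) ∧
    Integrable (fun y : ℝ => y ^ 2) ν ∧ ∫ y, y ∂ν = 0 ∧
    HasSum (fun t : ℝ => (μ t / t) ^ 2) (∫ y, y ^ 2 ∂ν) ∧
    Tendsto (fun X : ℝ => (∫ x in Real.exp 1..X, (Real.log x * D x) ^ 2 / x) / Real.log X) atTop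
      (𝓝 (∫ y, y ^ 2 ∂ν)) ∧
    ∀ c : ℝ, ν {c} = 0 → Tendsto (shareAbove D c) atTop (𝓝 (ν.real (Ioi c)))

/-- `ν` is the joint limiting logarithmic distribution of the functions `log x · δ_i(x)`. -/
def IsJointLaw {ι : Type} (δ : ι → ℝ → ℝ) (ν : Measure (ι → ℝ)) : Prop :=
  IsProbabilityMeasure ν ∧ ∀ φ : (ι → ℝ) → ℝ, Continuous φ → (∃ B : ℝ, ∀ y, |φ y| ≤ B) →
    Tendsto (fun X : ℝ =>
      (∫ x in Real.exp 1..X, φ (fun i => Real.log x * δ i x) / x) / Real.log X) atTop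
      (𝓝 (∫ y, φ y ∂ν))

/-- There is exactly one joint limiting logarithmic distribution `ν` of the functions
`log x · δ_i(x)`; its means are `0`; its covariances are `∑_t m_i(t) m_j(t)/t²`, and they are the limits
of the means of `log x · δ_i(x) · log x · δ_j(x)`; and `ν` is supported in the hyperplane
`∑ c_i y_i = 0` if and only if `∑ c_i m_i(t) = 0` for all `t ≠ 0`. -/
def JointLaw {ι : Type} [Fintype ι] (m : ι → ℝ → ℕ) (δ : ι → ℝ → ℝ) : Prop :=
  ∃ ν : Measure (ι → ℝ), (IsJointLaw δ ν ∧ ∀ ν' : Measure (ι → ℝ), IsJointLaw δ ν' → ν' = ν) ∧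
    (∀ i, Integrable (fun y : ι → ℝ => y i ^ 2) ν) ∧ (∀ i, ∫ y, y i ∂ν = 0) ∧
    (∀ i j, HasSum (fun t : ℝ => (m i t : ℝ) * m j t / t ^ 2) (∫ y, y i * y j ∂ν) ∧
      Tendsto (fun X : ℝ =>
        (∫ x in Real.exp 1..X, (Real.log x * δ i x) * (Real.log x * δ j x) / x) / Real.log X) atTop
        (𝓝 (∫ y, y i * y j ∂ν))) ∧
    ∀ c : ι → ℝ, (∀ᵐ y ∂ν, ∑ i, c i * y i = 0) ↔ ∀ t : ℝ, t ≠ 0 → ∑ i, c i * (m i t : ℝ) = 0

/-- `δ(x) = log (c P*(x) / (e^γ log x)^ρ)` -/
noncomputable def delta (a b : ℤ) (ρ c x : ℝ) : ℝ :=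
  Real.log (c * Pstar a b x / (Real.exp Real.eulerMascheroniConstant * Real.log x) ^ ρ)

section family

variable {ι : Type} [Fintype ι]

/-- `D(x) = log (A ∏_i P*_i(x)^(w_i) / (e^γ log x)^ρ)` -/
noncomputable def dev (a b : ι → ℤ) (w : ι → ℝ) (ρ A x : ℝ) : ℝ :=
  Real.log (A * (∏ i, Pstar (a i) (b i) x ^ w i) /
    (Real.exp Real.eulerMascheroniConstant * Real.log x) ^ ρ)

/-- `D₀(x) = log (A ∏_i P_i(x)^(w_i) / (√2^(∑ w_i) (e^γ log x)^ρ))`, with the original products -/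
noncomputable def dev0 (a b : ι → ℤ) (w : ι → ℝ) (ρ A x : ℝ) : ℝ :=
  Real.log (A * (∏ i, P (a i) (b i) x ^ w i) /
    (√2 ^ (∑ i, w i) * (Real.exp Real.eulerMascheroniConstant * Real.log x) ^ ρ))

/-- `∑_i w_i m_i(t)` -/
noncomputable def wmult (F : ι → ℂ → ℂ) (w : ι → ℝ) (t : ℝ) : ℝ := ∑ i, w i * (mult (F i) t : ℝ)

end family

/-! ### Translation to the definitions of the imported files -/

open Pool.Agent.W263.BSD (bsdProduct bsdStar rsSum bsdStar_pos bsdProduct_pos)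
open Pool.Agent.TH270.MS (BM)
open Pool.Agent.TH270.MS.EQ (nQ alQ bm_star bm_product log_sqrt_two)
open Pool.Agent.Results.MP_92892c_nt.ExactMeanSquareRational (LeadingRH)
open Pool.Agent.H21.RH (pack_ec meanZero_congr)
open Pool.Agent.H21.RH.G (IsD pack_lin pack_indep pack_upper coeff_bound d_bm)
open Pool.Agent.H21.RD (bm_sum)

theorem P_eq (a b : ℤ) : P a b = bsdProduct a b := by
  funext x
  unfold P bsdProduct
  refine Finset.prod_congr rfl fun p _ => ?_
  congr 1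
  unfold numPoints
  push_cast
  rfl

theorem star_eq (a b : ℤ) : Pstar a b = bsdStar a b := by
  funext x
  unfold Pstar bsdStar
  rw [P_eq]
  congr 2
  refine Finset.sum_congr rfl fun p _ => ?_
  unfold numPoints
  push_cast
  rw [add_sub_add_right_eq_sub]
  rfl

theorem ls_eq {a b : ℤ} {F : ℂ → ℂ} (h : IsLSeries a b F) : Pool.Agent.W263.BSD.IsLSeries a b F := by
  refine ⟨h.1, fun s hs => ?_⟩
  refine (congrArg (fun g => HasProd g (F s)) (funext fun p => ?_)).mp (h.2 s hs)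
  unfold numPoints
  push_cast
  rw [add_sub_add_right_eq_sub]
  rfl

theorem form_eq {a b : ℤ} {N : ℕ} {f : CuspForm (Gamma0 N : Subgroup (GL (Fin 2) ℝ)) 2}
    (hf : IsNewformOf a b N f) :
    Pool.Agent.Results.MP_8b7eba_nt.OneWindow.IsNewformOf a b N f where
  one := hf.one
  real := hf.real
  mul := hf.mul
  pow := hf.pow
  points := fun p hp => by
    have h1 := hf.points p hp
    unfold numPoints at h1
    push_cast at h1
    rw [add_sub_add_right_eq_sub] at h1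
    exact h1
  good := hf.good
  bad := hf.bad

theorem rs {a b : ℤ} (hΔ : 4 * a ^ 3 + 27 * b ^ 2 ≠ 0) {N : ℕ} [NeZero N]
    {f : CuspForm (Gamma0 N : Subgroup (GL (Fin 2) ℝ)) 2} (hf : IsNewformOf a b N f) :
    Tendsto (fun x => Real.log (bsdStar a b x) - Real.log (bsdProduct a b x)) atTop
      (𝓝 (-(Real.log 2 / 2))) := by
  have h1 : Tendsto (rsSum a b) atTop (𝓝 0) :=
    (Pool.Agent.Results.MP_8b7eba_nt.OneWindow.hecke (form_eq hf)).rsSum_tendsto hΔ
      fun p hp => (form_eq hf).points p hp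
  refine (Pool.Agent.W263.BSD.corr_tendsto hΔ h1).congr fun x => ?_
  unfold bsdStar
  rw [Real.log_mul (bsdProduct_pos x).ne' (Real.exp_pos _).ne', Real.log_exp, add_sub_cancel_left]

section main

variable {ι : Type} [Fintype ι] {a b : ι → ℤ} {F : ι → ℂ → ℂ} {w : ι → ℝ}

theorem isD (a b : ι → ℤ) (w : ι → ℝ) (ρ : ℝ) {A : ℝ} (hA : 0 < A) :
    IsD (fun i x => Real.log (bsdStar (a i) (b i) x)) w ρ A (dev a b w ρ A) := by
  intro x hx
  have hl : 0 < Real.log x := by linarith [Pool.Agent.TH270.MS.one_le_log hx]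
  have h1 : 0 < Real.exp Real.eulerMascheroniConstant * Real.log x :=
    mul_pos (Real.exp_pos _) hl
  have h2 := Real.rpow_pos_of_pos h1 ρ
  have h3 : ∀ i, 0 < Pstar (a i) (b i) x := fun i => by
    rw [star_eq]
    exact bsdStar_pos x
  have h4 : ∀ i, 0 < Pstar (a i) (b i) x ^ w i := fun i => Real.rpow_pos_of_pos (h3 i) _
  have h5 : 0 < ∏ i, Pstar (a i) (b i) x ^ w i := Finset.prod_pos fun i _ => h4 i
  unfold dev
  rw [Real.log_div (mul_pos hA h5).ne' h2.ne', Real.log_mul hA.ne' h5.ne',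
    Real.log_prod fun i _ => (h4 i).ne', Real.log_rpow h1, Real.log_mul (Real.exp_pos _).ne' hl.ne',
    Real.log_exp]
  have h7 : ∑ i, Real.log (Pstar (a i) (b i) x ^ w i) =
      ∑ i, w i * Real.log (bsdStar (a i) (b i) x) :=
    Finset.sum_congr rfl fun i _ => by rw [Real.log_rpow (h3 i), star_eq]
  rw [h7]
  ring

theorem dev0_eq (a b : ι → ℤ) (w : ι → ℝ) (ρ : ℝ) {A x : ℝ} (hA : 0 < A) (hx : Real.exp 1 ≤ x) :
    dev0 a b w ρ A x = ∑ i, w i * Real.log (bsdProduct (a i) (b i) x) + Real.log A -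
      ρ * (Real.eulerMascheroniConstant + Real.log (Real.log x)) - (∑ i, w i) * (Real.log 2 / 2) := by
  have hl : 0 < Real.log x := by linarith [Pool.Agent.TH270.MS.one_le_log hx]
  have h1 : 0 < Real.exp Real.eulerMascheroniConstant * Real.log x :=
    mul_pos (Real.exp_pos _) hl
  have h2 := Real.rpow_pos_of_pos h1 ρ
  have h0 : (0 : ℝ) < √2 := by positivity
  have h0' : 0 < √2 ^ (∑ i, w i) := Real.rpow_pos_of_pos h0 _
  have h3 : ∀ i, 0 < P (a i) (b i) x := fun i => by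
    rw [P_eq]
    exact bsdProduct_pos x
  have h4 : ∀ i, 0 < P (a i) (b i) x ^ w i := fun i => Real.rpow_pos_of_pos (h3 i) _
  have h5 : 0 < ∏ i, P (a i) (b i) x ^ w i := Finset.prod_pos fun i _ => h4 i
  unfold dev0
  rw [Real.log_div (mul_pos hA h5).ne' (mul_pos h0' h2).ne', Real.log_mul hA.ne' h5.ne',
    Real.log_prod fun i _ => (h4 i).ne', Real.log_mul h0'.ne' h2.ne', Real.log_rpow h0,
    Real.log_rpow h1, Real.log_mul (Real.exp_pos _).ne' hl.ne', Real.log_exp, log_sqrt_two]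
  have h7 : ∑ i, Real.log (P (a i) (b i) x ^ w i) =
      ∑ i, w i * Real.log (bsdProduct (a i) (b i) x) :=
    Finset.sum_congr rfl fun i _ => by rw [Real.log_rpow (h3 i), P_eq]
  rw [h7]
  ring

theorem mean0_iff (hΔ : ∀ i, 4 * a i ^ 3 + 27 * b i ^ 2 ≠ 0) (hm : ∀ i, Modular (a i) (b i))
    (w : ι → ℝ) (ρ : ℝ) {A : ℝ} (hA : 0 < A) :
    MeanZero (dev0 a b w ρ A) ↔ MeanZero (dev a b w ρ A) := by
  have hb : BM (dev a b w ρ A) := d_bm (fun i => bm_star (a i) (b i)) (isD a b w ρ hA)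
  have hb0 : BM (dev0 a b w ρ A) := by
    refine Pool.Agent.Q5.OM.bm_congr (f := fun x => ∑ i, w i * Real.log (bsdProduct (a i) (b i) x) +
      Real.log A - ρ * (Real.eulerMascheroniConstant + Real.log (Real.log x)) -
        (∑ i, w i) * (Real.log 2 / 2)) ?_ fun x hx => (dev0_eq a b w ρ hA hx).symm
    exact (((bm_sum _ fun i _ => (BM.const (w i)).mul (bm_product (a i) (b i))).add
      (BM.const _)).sub ((BM.const ρ).mul ((BM.const _).add BM.loglog))).sub (BM.const _)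
  refine meanZero_congr hb0 hb ?_
  have h1 : Tendsto (fun x => ∑ i, w i * -((Real.log (bsdStar (a i) (b i) x) -
      Real.log (bsdProduct (a i) (b i) x)) - -(Real.log 2 / 2))) atTop (𝓝 0) := by
    have h2 : ∀ i ∈ (Finset.univ : Finset ι), Tendsto (fun x => w i *
        -((Real.log (bsdStar (a i) (b i) x) - Real.log (bsdProduct (a i) (b i) x)) -
          -(Real.log 2 / 2))) atTop (𝓝 0) := by
      intro i _
      obtain ⟨N, _, f, hf⟩ := hm i
      have h3 := (((rs (hΔ i) hf).sub_const (-(Real.log 2 / 2))).neg).const_mul (w i)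
      rw [sub_self, neg_zero, mul_zero] at h3
      exact h3
    have h3 := tendsto_finsetSum Finset.univ h2
    rw [Finset.sum_const_zero] at h3
    exact h3
  refine h1.congr' ?_
  filter_upwards [eventually_ge_atTop (Real.exp 1)] with x hx
  rw [dev0_eq a b w ρ hA hx, isD a b w ρ hA x hx]
  have h4 : ∑ i, w i * -((Real.log (bsdStar (a i) (b i) x) -
      Real.log (bsdProduct (a i) (b i) x)) - -(Real.log 2 / 2)) =
      ∑ i, w i * Real.log (bsdProduct (a i) (b i) x) -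
        ∑ i, w i * Real.log (bsdStar (a i) (b i) x) - (∑ i, w i) * (Real.log 2 / 2) := by
    rw [Finset.sum_mul, ← Finset.sum_sub_distrib, ← Finset.sum_sub_distrib]
    exact Finset.sum_congr rfl fun i _ => by ring
  rw [h4]
  ring

theorem log_prod_iff {A : ℝ} (hA : 0 < A) {c : ι → ℝ} (hc : ∀ i, 0 < c i) (w : ι → ℝ) :
    Real.log A = ∑ i, w i * Real.log (c i) ↔ A = ∏ i, c i ^ w i := by
  have h1 : ∀ i, 0 < c i ^ w i := fun i => Real.rpow_pos_of_pos (hc i) _
  have h2 : 0 < ∏ i, c i ^ w i := Finset.prod_pos fun i _ => h1 i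
  have h3 : ∑ i, w i * Real.log (c i) = Real.log (∏ i, c i ^ w i) := by
    rw [Real.log_prod fun i _ => (h1 i).ne']
    exact Finset.sum_congr rfl fun i _ => by rw [Real.log_rpow (hc i)]
  rw [h3]
  exact ⟨fun h => Real.log_injOn_pos (mem_Ioi.2 hA) (mem_Ioi.2 h2) h, fun h => by rw [h]⟩

/-- the leading coefficient for the order `p` -/
theorem lead_iff_p {F : ℂ → ℂ} {p : ℕ} (h : analyticOrderAt F 1 = p) {e : ℕ} {c : ℝ} :
    RH F ∧ IsLeading F e c ↔ e = p ∧ LeadingRH F p c := by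
  unfold IsLeading LeadingRH
  constructor
  · rintro ⟨h0, h1, h2⟩
    have h4 : e = p := by
      rw [h] at h1
      exact_mod_cast h1.symm
    subst h4
    exact ⟨rfl, h0, e, rfl, h1, h2⟩
  · rintro ⟨rfl, h0, e', he', h1, h2⟩
    have h4 : e = e' := by exact_mod_cast he'
    subst h4
    exact ⟨h0, h1, h2⟩

/-- **One averaged law for the products of Birch and Swinnerton-Dyer.** -/
theorem result {ι : Type} [Fintype ι] (a b : ι → ℤ) (hΔ : ∀ i, 4 * a i ^ 3 + 27 * b i ^ 2 ≠ 0)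
    (hm : ∀ i, Modular (a i) (b i)) (F : ι → ℂ → ℂ) (hF : ∀ i, IsLSeries (a i) (b i) (F i)) :
    -- weights which are linearly independent over `ℚ`
    (∀ w : ι → ℝ, LinearIndependent ℚ w → ∀ ρ A : ℝ, 0 < A →
      List.TFAE [
        ∃ (r : ι → ℕ) (c : ι → ℝ), (∀ i, 0 < c i ∧ RH (F i) ∧ IsLeading (F i) (r i) (c i)) ∧
          ρ = ∑ i, w i * r i ∧ A = ∏ i, c i ^ w i,
        MeanZero (dev0 a b w ρ A),
        MeanZero (dev a b w ρ A),
        BoundedMeanSquare (dev a b w ρ A),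
        HasLimitLaw (dev a b w ρ A),
        LimitLaw (wmult F w) (dev a b w ρ A),
        ∃ (r : ι → ℕ) (c : ι → ℝ), (∀ i, 0 < c i) ∧ ρ = ∑ i, w i * r i ∧ A = ∏ i, c i ^ w i ∧
          JointLaw (fun i => mult (F i)) (fun i => delta (a i) (b i) (r i) (c i)),
        ∃ (r : ι → ℕ) (c : ι → ℝ), (∀ i, 0 < c i) ∧ ρ = ∑ i, w i * r i ∧ A = ∏ i, c i ^ w i ∧
          ∀ w' : ι → ℝ, LimitLaw (wmult F w')
            (dev a b w' (∑ i, w' i * r i) (∏ i, c i ^ w' i))]) ∧
    -- arbitrary real weights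
    (∀ (w : ι → ℝ) (r : ι → ℕ) (c : ι → ℝ),
      (∀ i, 0 < c i ∧ RH (F i) ∧ IsLeading (F i) (r i) (c i)) → ∀ ρ A : ℝ, 0 < A →
      List.TFAE [
        ρ = ∑ i, w i * r i ∧ A = ∏ i, c i ^ w i,
        MeanZero (dev0 a b w ρ A),
        MeanZero (dev a b w ρ A),
        BoundedMeanSquare (dev a b w ρ A),
        HasLimitLaw (dev a b w ρ A),
        LimitLaw (wmult F w) (dev a b w ρ A)]) ∧
    -- one-sided bounds
    (∀ w : ι → ℝ, LinearIndependent ℚ w →
      (∀ x : ℝ, 1 < x → 0 ≤ ∑ i, w i * (analyticOrderNatAt (F i) x : ℝ)) →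
      ∀ ρ A B : ℝ, 0 < A → (∀ᶠ x : ℝ in atTop, Real.log x * dev a b w ρ A x ≤ B) →
      (∀ i, RH (F i)) ∧
      ∀ (r : ι → ℕ) (c : ι → ℝ), (∀ i, 0 < c i ∧ IsLeading (F i) (r i) (c i)) →
        ∑ i, w i * r i ≤ ρ ∧ (ρ = ∑ i, w i * r i → A = ∏ i, c i ^ w i →
          ∀ t : ℝ, t ≠ 0 → |wmult F w t| ≤ B * |t|)) := by
  classical
  have hF' : ∀ i, Pool.Agent.W263.BSD.IsLSeries (a i) (b i) (F i) := fun i => ls_eq (hF i)
  have hP : ∀ i, ∃ p : ℕ, analyticOrderAt (F i) 1 = p ∧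
      Pool.Agent.H21.RH.G.Pack (nQ (a i) (b i)) (alQ (a i) (b i))
        (fun x => Real.log (bsdStar (a i) (b i) x)) (fun s => F i (1 + s)) p
        (Pool.Agent.Results.MP_92892c_nt.ExactMeanSquareRational.mult (F i)) (LeadingRH (F i))
        (Pool.Agent.Results.MP_92892c_nt.ExactMeanSquareRational.devStar (a i) (b i)) := fun i => by
    obtain ⟨N, _, f, hf⟩ := hm i
    exact pack_ec (hΔ i) (hF' i) (form_eq hf)
  choose p hp P using hP
  have hld : ∀ i (e : ℕ) (c : ℝ), (RH (F i) ∧ IsLeading (F i) e c ↔ e = p i ∧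
      LeadingRH (F i) (p i) c) := fun i e c => lead_iff_p (hp i)
  have E1 : ∀ (w : ι → ℝ) (ρ A : ℝ), 0 < A →
      ((∃ (r : ι → ℕ) (c : ι → ℝ), (∀ i, 0 < c i ∧ RH (F i) ∧ IsLeading (F i) (r i) (c i)) ∧
        ρ = ∑ i, w i * r i ∧ A = ∏ i, c i ^ w i) ↔
      ∃ c : ι → ℝ, (∀ i, 0 < c i ∧ LeadingRH (F i) (p i) (c i)) ∧
        ρ = ∑ i, w i * p i ∧ Real.log A = ∑ i, w i * Real.log (c i)) := by
    intro w ρ A hA
    constructor
    · rintro ⟨e, c, h1, h2, h3⟩
      have he : e = p := funext fun i => ((hld i _ _).1 (h1 i).2).1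
      subst he
      exact ⟨c, fun i => ⟨(h1 i).1, ((hld i _ _).1 (h1 i).2).2⟩, h2,
        (log_prod_iff hA (fun i => (h1 i).1) w).2 h3⟩
    · rintro ⟨c, h1, h2, h3⟩
      exact ⟨p, c, fun i => ⟨(h1 i).1, (hld i _ _).2 ⟨rfl, (h1 i).2⟩⟩, h2,
        (log_prod_iff hA (fun i => (h1 i).1) w).1 h3⟩
  have hdel : ∀ (e : ι → ℕ) (c : ι → ℝ), (fun i => delta (a i) (b i) (e i) (c i)) =
      fun i => Pool.Agent.Results.MP_92892c_nt.ExactMeanSquareRational.devStar (a i) (b i)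
        (e i) (c i) := by
    intro e c
    funext i x
    unfold delta Pool.Agent.Results.MP_92892c_nt.ExactMeanSquareRational.devStar
    rw [star_eq]
  have part1 : ∀ w : ι → ℝ, LinearIndependent ℚ w → ∀ ρ A : ℝ, 0 < A →
      List.TFAE [
        ∃ (r : ι → ℕ) (c : ι → ℝ), (∀ i, 0 < c i ∧ RH (F i) ∧ IsLeading (F i) (r i) (c i)) ∧
          ρ = ∑ i, w i * r i ∧ A = ∏ i, c i ^ w i,
        MeanZero (dev0 a b w ρ A),
        MeanZero (dev a b w ρ A),
        BoundedMeanSquare (dev a b w ρ A),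
        HasLimitLaw (dev a b w ρ A),
        LimitLaw (wmult F w) (dev a b w ρ A),
        ∃ (r : ι → ℕ) (c : ι → ℝ), (∀ i, 0 < c i) ∧ ρ = ∑ i, w i * r i ∧ A = ∏ i, c i ^ w i ∧
          JointLaw (fun i => mult (F i)) (fun i => delta (a i) (b i) (r i) (c i)),
        ∃ (r : ι → ℕ) (c : ι → ℝ), (∀ i, 0 < c i) ∧ ρ = ∑ i, w i * r i ∧ A = ∏ i, c i ^ w i ∧
          ∀ w' : ι → ℝ, LimitLaw (wmult F w')
            (dev a b w' (∑ i, w' i * r i) (∏ i, c i ^ w' i))] := by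
    intro w hw ρ A hA
    have base := pack_indep P (isD a b w ρ hA) hw
    have hj : ∀ (e : ι → ℕ) (c : ι → ℝ), (∀ i, 0 < c i) →
        ((∀ i, LeadingRH (F i) (e i) (c i)) ↔
        JointLaw (fun i => mult (F i)) (fun i => delta (a i) (b i) (e i) (c i))) := fun e c hc => by
      rw [hdel]
      exact (Pool.Agent.Q5.DC.joint_tfae (P := fun i => LeadingRH (F i) (e i) (c i))
        (m := fun i => Pool.Agent.Results.MP_92892c_nt.ExactMeanSquareRational.mult (F i))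
        (δ := fun i => Pool.Agent.Results.MP_92892c_nt.ExactMeanSquareRational.devStar (a i) (b i)
          (e i) (c i))
        (fun i => ((P i).err _ _ (hc i)).1) (fun i => ((P i).err _ _ (hc i)).2.1)
        (fun i => ((P i).err _ _ (hc i)).2.2)).out 0 3
    tfae_have 2 ↔ 3 := mean0_iff hΔ hm w ρ hA
    tfae_have 1 ↔ 3 := (E1 w ρ A hA).trans (base.out 0 1)
    tfae_have 3 ↔ 4 := base.out 1 2
    tfae_have 4 ↔ 5 := base.out 2 3
    tfae_have 5 ↔ 6 := base.out 3 4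
    tfae_have 1 → 7 := by
      rintro ⟨e, c, h1, h2, h3⟩
      refine ⟨e, c, fun i => (h1 i).1, h2, h3, (hj e c fun i => (h1 i).1).1 fun i => ?_⟩
      obtain ⟨k1, k2⟩ := (hld i _ _).1 (h1 i).2
      rw [k1]
      exact k2
    tfae_have 7 → 1 := by
      rintro ⟨e, c, h1, h2, h3, h4⟩
      refine ⟨e, c, fun i => ?_, h2, h3⟩
      have k := (hj e c h1).2 h4 i
      have k3 : e i = p i := by
        exact_mod_cast ((P i).rh _ _ (h1 i) k).2
      exact ⟨h1 i, (hld i _ _).2 ⟨k3, k3 ▸ k⟩⟩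
    tfae_have 1 → 8 := by
      rintro ⟨e, c, h1, h2, h3⟩
      have he : e = p := funext fun i => ((hld i _ _).1 (h1 i).2).1
      subst he
      refine ⟨e, c, fun i => (h1 i).1, h2, h3, fun w' => ?_⟩
      have hA' : 0 < ∏ i, c i ^ w' i :=
        Finset.prod_pos fun i _ => Real.rpow_pos_of_pos (h1 i).1 _
      have k := pack_lin P (isD a b w' (∑ i, w' i * e i) hA') (fun i =>
        ⟨(h1 i).1, ((hld i _ _).1 (h1 i).2).2⟩)
      have k4 : (∑ i, w' i * (e i : ℝ) = ∑ i, w' i * e i ∧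
          Real.log (∏ i, c i ^ w' i) = ∑ i, w' i * Real.log (c i)) ↔
          LimitLaw (wmult F w') (dev a b w' (∑ i, w' i * e i) (∏ i, c i ^ w' i)) := k.out 0 4
      exact k4.1 ⟨rfl, (log_prod_iff hA' (fun i => (h1 i).1) w').2 rfl⟩
    tfae_have 8 → 6 := by
      rintro ⟨e, c, h1, h2, h3, h4⟩
      have := h4 w
      rwa [← h2, ← h3] at this
    tfae_finish
  refine ⟨part1, ?_, ?_⟩
  · intro w e c h1 ρ A hA
    have he : e = p := funext fun i => ((hld i _ _).1 (h1 i).2).1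
    subst he
    have k := pack_lin P (isD a b w ρ hA) (c := c) (fun i =>
      ⟨(h1 i).1, ((hld i _ _).1 (h1 i).2).2⟩)
    rw [log_prod_iff hA (fun i => (h1 i).1) w] at k
    tfae_have 2 ↔ 3 := mean0_iff hΔ hm w ρ hA
    tfae_have 1 ↔ 3 := k.out 0 1
    tfae_have 3 ↔ 4 := k.out 1 2
    tfae_have 4 ↔ 5 := k.out 2 3
    tfae_have 5 ↔ 6 := k.out 3 4
    tfae_finish
  · intro w hw hsg ρ A B hA hB
    have hmz : ∀ z : ℂ, Pool.Agent.H21.RC.mult w (fun i s => F i (1 + s)) z =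
        ∑ i, w i * (analyticOrderNatAt (F i) (1 + z) : ℝ) := by
      intro z
      unfold Pool.Agent.H21.RC.mult
      exact Finset.sum_congr rfl fun i _ => by rw [Pool.Agent.H21.RD.nat_shiftC]
    obtain ⟨h1, h2⟩ := pack_upper P (isD a b w ρ hA) (fun x hx => by
      rw [hmz]
      have := hsg (1 + x) (by linarith)
      push_cast at this
      exact this) hB
    have h3 : ∀ i, RH (F i) := by
      intro i s hs
      have h4 := Pool.Agent.H21.RD.indep_sys (fun i => (P i).mh) (fun i => (P i).order) hw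
        (s := s - 1) (by
          rw [Complex.sub_re, Complex.one_re]
          linarith) (h1 _ (by
          rw [Complex.sub_re, Complex.one_re]
          linarith)) i
      simp only [add_sub_cancel] at h4
      exact h4
    refine ⟨h3, fun e c hc => ?_⟩
    have he : e = p := funext fun i => ((hld i _ _).1 ⟨h3 i, (hc i).2⟩).1
    subst he
    refine ⟨h2, fun h4 h5 t ht => ?_⟩
    have h6 := coeff_bound P (isD a b w ρ hA) (fun i =>
      ⟨(hc i).1, ((hld i _ _).1 ⟨h3 i, (hc i).2⟩).2⟩) h4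
      ((log_prod_iff hA (fun i => (hc i).1) w).2 h5) hB ht
    rw [div_le_iff₀ (abs_pos.2 ht)] at h6
    exact h6

end main

end Pool.Agent.Results.MP_ad1693_nt.OneAveragedLaw
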