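import Pool.Agent.H21.RC.Main
import Pool.Agent.H21.L.R_seed8.TH941.Newform

/-!
# Asymptotic formulas for products of the Birch and Swinnerton-Dyer products of several curves

Let `E_i : y² = x³ + a_i x + b_i` be finitely many elliptic curves over `ℚ` (isogenous or not), let
`P_i(x) = ∏_{p ≤ x, p ∤ 2Δ_i} N_p(E_i) / p`, let `F_i` be the entire continuation of the incomplete
`L`-series, `r_i = ord_{s=1} F_i`, `T_i = √2 e^{r_i γ} r_i! / |F_i^{(r_i)}(1)|`, and let `w_i` be REAL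
weights of any signs.  The question asks for `P_i(x) ∼ C_i (log x)^(r_i)`.  Here the product
`Q(x) = ∏ P_i(x)^(w_i)` is studied, for example the quotient `P_1(x) / P_2(x)`.

* If `Q(x) / (log x)^ρ → C ≠ 0` for some real `ρ`, then `ρ = ∑ w_i r_i`, and the
  weighted multiplicities cancel: `∑ w_i ord_s F_i = 0` at every `s` with `Re s > 1`.  For modular
  curves (all are) then `C = ∏ T_i^(w_i)`.
* The existence of such a formula is equivalent to a one-sided condition of slow oscillation of `Q`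
  together with a one-sided condition on the signs of `∑ w_i ord_s F_i` at REAL points `s > 1` only.
* If the `w_i` are linearly independent over the rational numbers, ONE such formula for the single
  function `Q` proves the Riemann hypothesis for all the `F_i`, and its exponent determines
  all the orders `r_i`.

The multiplicities may cancel between different curves, so that, in contrast to the case of one curve,
no function `F_i` has to be free of zeros.  The logarithm of `∏ F_i^(w_i)` is continued along its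
half-plane of convergence by its derivative, which is a sum of meromorphic functions; the order of the
poles is determined by the weighted multiplicities, and the real part is recovered by a connectedness
argument from the sum of the logarithms of the absolute values.
-/

set_option autoImplicit false

namespace Pool.Agent.Results.MP_ad1693_nt.WeightedProducts

open Filter Topology CongruenceSubgroup UpperHalfPlane
open scoped MatrixGroups Classical

/-- `N_p`: the number of points of `y² = x³ + a x + b` modulo `p`, with the point at infinity. -/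
noncomputable def numPoints (a b : ℤ) (p : ℕ) : ℕ :=
  Nat.card {q : ZMod p × ZMod p // q.2 ^ 2 = q.1 ^ 3 + (a : ZMod p) * q.1 + (b : ZMod p)} + 1

/-- `p` is a prime that does not divide `2 Δ`, where `Δ = -4 a³ - 27 b²`. -/
def Good (a b : ℤ) (p : ℕ) : Prop :=
  p.Prime ∧ ¬ ((p : ℤ) ∣ 2 * (-4 * a ^ 3 - 27 * b ^ 2))

/-- The original Birch and Swinnerton-Dyer product `P(x) = ∏_{p ≤ x, p ∤ 2Δ} N_p / p`. -/
noncomputable def P (a b : ℤ) (x : ℝ) : ℝ :=
  ∏ p ∈ (Finset.range (⌊x⌋₊ + 1)).filter (Good a b), ((numPoints a b p : ℝ) / p)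

/-- `F` is an entire function which for `Re s > 3/2` is the incomplete `L`-series
`∏_{p ∤ 2Δ} (1 - a_p p^{-s} + p^{1-2s})⁻¹`, `a_p = p + 1 - N_p`, of `y² = x³ + a x + b`. -/
def IsLSeries (a b : ℤ) (F : ℂ → ℂ) : Prop :=
  Differentiable ℂ F ∧ ∀ s : ℂ, (3 : ℝ) / 2 < s.re →
    HasProd (fun p : ℕ => if Good a b p then
      (1 - ((p : ℂ) + 1 - (numPoints a b p : ℂ)) * (p : ℂ) ^ (-s) + (p : ℂ) ^ (1 - 2 * s))⁻¹ else 1)
      (F s)

/-- The `n`-th Fourier coefficient of `f`. -/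
noncomputable def coef {N : ℕ} (f : CuspForm (Gamma0 N : Subgroup (GL (Fin 2) ℝ)) 2) (n : ℕ) : ℂ :=
  (qExpansion 1 f).coeff n

/-- `f ∈ S_2(Γ₀(N))` is the newform of the elliptic curve `E : y² = x³ + a x + b` of conductor `N`: the
Fourier coefficients `c(n)` of `f` are real with `c(1) = 1`, they satisfy the Hecke relations
`c(mn) = c(m) c(n)` for coprime `m`, `n` and `c(p^(j+2)) = c(p) c(p^(j+1)) - p c(p^j)` (without the last
term if `p ∣ N`), `c(p) = a_p = p + 1 - N_p` for all primes `p ∤ 2Δ`, `|c(p)| ≤ 2 √p` for all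
`p ∤ N` (Hasse) and `c(p) = 0, 1, -1` for `p ∣ N`. -/
structure IsNewformOf (a b : ℤ) (N : ℕ) (f : CuspForm (Gamma0 N : Subgroup (GL (Fin 2) ℝ)) 2) :
    Prop where
  one : coef f 1 = 1
  real : ∀ n, (coef f n).im = 0
  mul : ∀ m n : ℕ, Nat.Coprime m n → coef f (m * n) = coef f m * coef f n
  pow : ∀ p j : ℕ, p.Prime → coef f (p ^ (j + 2)) = coef f p * coef f (p ^ (j + 1)) -
      (if p ∣ N then 0 else (p : ℂ) * coef f (p ^ j))
  points : ∀ p : ℕ, Good a b p → coef f p = (p : ℂ) + 1 - (numPoints a b p : ℂ)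
  good : ∀ p : ℕ, p.Prime → ¬ p ∣ N → ‖coef f p‖ ≤ 2 * Real.sqrt p
  bad : ∀ p : ℕ, p.Prime → p ∣ N → coef f p = 0 ∨ coef f p = 1 ∨ coef f p = -1

/-- `y² = x³ + a x + b` is modular (which by Wiles and Breuil-Conrad-Diamond-Taylor is always the case) -/
def Modular (a b : ℤ) : Prop := ∃ (N : ℕ) (_ : NeZero N)
  (f : CuspForm (Gamma0 N : Subgroup (GL (Fin 2) ℝ)) 2), IsNewformOf a b N f

/-- Goldfeld's constant `T = √2 e^{rγ} r! / |F^{(r)}(1)|` -/
noncomputable def T (F : ℂ → ℂ) (r : ℕ) : ℝ :=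
  √2 * Real.exp (r * Real.eulerMascheroniConstant) * r.factorial / ‖iteratedDeriv r F 1‖

/-- `Q(x) = ∏_i P_i(x)^(w_i)`, with real exponents `w_i` -/
noncomputable def Q {ι : Type} [Fintype ι] (a b : ι → ℤ) (w : ι → ℝ) (x : ℝ) : ℝ :=
  ∏ i, P (a i) (b i) x ^ w i

/-- `∑_i w_i ord_s F_i`, the weighted multiplicity of `s` as a zero of the functions `F_i` -/
noncomputable def wt {ι : Type} [Fintype ι] (F : ι → ℂ → ℂ) (w : ι → ℝ) (s : ℂ) : ℝ :=
  ∑ i, w i * (analyticOrderNatAt (F i) s : ℝ)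

/-! ### translation -/

open Pool.Agent.W263.BSD (bsdProduct leadAbs rsSum)

theorem P_eq (a b : ℤ) : P a b = bsdProduct a b := by
  funext x
  unfold P bsdProduct
  refine Finset.prod_congr rfl fun p _ => ?_
  congr 1
  unfold numPoints
  push_cast
  rfl

theorem ls_eq {a b : ℤ} {F : ℂ → ℂ} (h : IsLSeries a b F) : Pool.Agent.W263.BSD.IsLSeries a b F := by
  refine ⟨h.1, fun s hs => ?_⟩
  refine (congrArg (fun g => HasProd g (F s)) (funext fun p => ?_)).mp (h.2 s hs)
  unfold numPoints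
  push_cast
  rw [add_sub_add_right_eq_sub]
  rfl

theorem hecke {a b : ℤ} {N : ℕ} {f : CuspForm (Gamma0 N : Subgroup (GL (Fin 2) ℝ)) 2}
    (hf : IsNewformOf a b N f) : Pool.Agent.TH941.Hecke f where
  one := hf.one
  real := hf.real
  mul := hf.mul
  pow := hf.pow
  good := hf.good
  bad := fun p hp h => by
    rcases hf.bad p hp h with h1 | h1 | h1
    · have h2 : ‖coef f p‖ ≤ 1 := by rw [h1]; simp
      exact h2
    · have h2 : ‖coef f p‖ ≤ 1 := by rw [h1]; simp
      exact h2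
    · have h2 : ‖coef f p‖ ≤ 1 := by rw [h1]; simp
      exact h2

theorem rs {a b : ℤ} (hΔ : 4 * a ^ 3 + 27 * b ^ 2 ≠ 0) {N : ℕ} [NeZero N]
    {f : CuspForm (Gamma0 N : Subgroup (GL (Fin 2) ℝ)) 2} (hf : IsNewformOf a b N f) :
    Tendsto (rsSum a b) atTop (𝓝 0) := by
  refine (hecke hf).rsSum_tendsto hΔ fun p hp => ?_
  have h1 := hf.points p hp
  unfold numPoints at h1
  push_cast at h1
  rw [add_sub_add_right_eq_sub] at h1
  exact h1

/-- **Asymptotic formulas for `∏ P_i(x)^(w_i)`.** -/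
theorem result {ι : Type} [Fintype ι] (a b : ι → ℤ) (hΔ : ∀ i, 4 * a i ^ 3 + 27 * b i ^ 2 ≠ 0)
    (F : ι → ℂ → ℂ) (hF : ∀ i, IsLSeries (a i) (b i) (F i)) :
    ∃ r : ι → ℕ, (∀ i, analyticOrderAt (F i) 1 = r i ∧ iteratedDeriv (r i) (F i) 1 ≠ 0) ∧
      ∀ w : ι → ℝ,
        (∀ C ρ : ℝ, C ≠ 0 → Tendsto (fun x : ℝ => Q a b w x / (Real.log x) ^ ρ) atTop (𝓝 C) →
          ρ = ∑ i, w i * r i ∧ (∀ s : ℂ, 1 < s.re → wt F w s = 0) ∧
          (LinearIndependent ℚ w → (∀ i, ∀ s : ℂ, 1 < s.re → F i s ≠ 0) ∧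
            ∀ r' : ι → ℕ, ρ = ∑ i, w i * r' i → r' = r)) ∧
        ((∀ i, Modular (a i) (b i)) → List.TFAE [
          ∃ C ρ : ℝ, C ≠ 0 ∧ Tendsto (fun x : ℝ => Q a b w x / (Real.log x) ^ ρ) atTop (𝓝 C),
          Tendsto (fun x : ℝ => Q a b w x / (Real.log x) ^ (∑ i, w i * r i)) atTop
            (𝓝 (∏ i, T (F i) (r i) ^ w i)),
          (∀ s : ℝ, 1 < s → 0 ≤ wt F w s) ∧
            ∀ ε : ℝ, 0 < ε → ∃ δ : ℝ, 0 < δ ∧ ∀ᶠ x : ℝ in atTop, ∀ y, x ≤ y → y ≤ x ^ (1 + δ) →
              Q a b w y ≤ (1 + ε) * Q a b w x,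
          (∀ s : ℝ, 1 < s → wt F w s ≤ 0) ∧
            ∀ ε : ℝ, 0 < ε → ∃ δ : ℝ, 0 < δ ∧ ∀ᶠ x : ℝ in atTop, ∀ y, x ≤ y → y ≤ x ^ (1 + δ) →
              Q a b w x ≤ (1 + ε) * Q a b w y]) := by
  have hF' : ∀ i, Pool.Agent.W263.BSD.IsLSeries (a i) (b i) (F i) := fun i => ls_eq (hF i)
  choose r hr using fun i => Pool.Agent.W263.BSD.order_finite (hF' i)
  have hpos : ∀ i, 0 < leadAbs (F i) (r i) := fun i =>
    (Pool.Agent.W263.BSD.lead_limit (hF' i).1 (hr i)).1
  have hne : ∀ i, iteratedDeriv (r i) (F i) 1 ≠ 0 := by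
    intro i h
    have := hpos i
    unfold leadAbs at this
    rw [h, norm_zero, zero_div] at this
    exact lt_irrefl _ this
  have hT : ∀ i, T (F i) (r i) = Pool.Agent.H21.RC.TT F r i := by
    intro i
    have hnn : 0 < ‖iteratedDeriv (r i) (F i) 1‖ := norm_pos_iff.2 (hne i)
    unfold T Pool.Agent.H21.RC.TT leadAbs
    have : (0 : ℝ) < (r i).factorial := by exact_mod_cast (r i).factorial_pos
    field_simp
  have hQ : ∀ w : ι → ℝ, Q a b w = Pool.Agent.H21.RC.QQ w a b := by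
    intro w
    funext x
    unfold Q Pool.Agent.H21.RC.QQ
    exact Finset.prod_congr rfl fun i _ => by rw [P_eq]
  refine ⟨r, fun i => ⟨hr i, hne i⟩, fun w => ⟨fun C ρ hC h => ?_, fun hm => ?_⟩⟩
  · rw [hQ] at h
    obtain ⟨h1, h3⟩ := Pool.Agent.H21.RC.unique_law0 hF' hr hC h
    refine ⟨h1, h3, fun hw => ⟨fun i s hs => ?_, fun r' hr' => ?_⟩⟩
    · exact (Pool.Agent.H21.RC.indep_law hF' hr hw s).1 (h3 s hs) i
    · exact Pool.Agent.H21.RC.indep_ranks hw (hr'.symm.trans h1)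
  · have hrs : ∀ i, Tendsto (rsSum (a i) (b i)) atTop (𝓝 0) := fun i => by
      obtain ⟨N, _, f, hf⟩ := hm i
      exact rs (hΔ i) hf
    have h1 := Pool.Agent.H21.RC.lead_law (w := w) hΔ hF' hr hrs
    rw [hQ]
    simp only [hT]
    exact h1

end Pool.Agent.Results.MP_ad1693_nt.WeightedProducts
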